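import Mathlib

/-!
# The distance `D` of a weight function `f(z) = |z|^α f₀(z/|z|)`
-/

set_option autoImplicit false

open MeasureTheory Filter Topology Set
open scoped ENNReal NNReal RealInnerProductSpace

namespace Pool.Agent.Q218.WF

/-- `ℝ^d` with the Euclidean norm. -/
abbrev E (d : ℕ) := EuclideanSpace ℝ (Fin d)

/-- The weight function `f(z) = |z|^α f₀(z/|z|)`, `z ≠ 0` (the value at `0` plays no role). -/
noncomputable def weight {d : ℕ} (α : ℝ) (f₀ : E d → ℝ) (z : E d) : ℝ :=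
  ‖z‖ ^ α * f₀ (‖z‖⁻¹ • z)

/-- `∫ dt / f(γ(t))` for the straight path `γ` from `p` to `q` parametrised by `μ`-length: the
path has `μ`-length `μ (q - p)`, so the integral is `μ (q - p) ∫₀¹ ds / f((1 - s) p + s q)`. -/
noncomputable def segLen {d : ℕ} (μ : Seminorm ℝ (E d)) (f : E d → ℝ) (p q : E d) : ℝ≥0∞ :=
  ENNReal.ofReal (μ (q - p)) *
    ∫⁻ s in Icc (0 : ℝ) 1, ENNReal.ofReal (1 / f ((1 - s) • p + s • q))

/-- `∫ dt / f(γ(t))` for the piecewise linear path with the given list of vertices. -/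
noncomputable def pathLen {d : ℕ} (μ : Seminorm ℝ (E d)) (f : E d → ℝ) : List (E d) → ℝ≥0∞
  | [] => 0
  | [_] => 0
  | p :: q :: l => segLen μ f p q + pathLen μ f (q :: l)

/-- `D(z,w)`: infimum over the piecewise linear paths from `z` to `w`. -/
noncomputable def D {d : ℕ} (μ : Seminorm ℝ (E d)) (f : E d → ℝ) (z w : E d) : ℝ≥0∞ :=
  ⨅ l : List (E d), pathLen μ f (z :: (l ++ [w]))

/-- The closed unit ball `𝔹 = {z : D(0,z) ≤ 1}`. -/
noncomputable def ballD {d : ℕ} (μ : Seminorm ℝ (E d)) (f : E d → ℝ) : Set (E d) :=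
  {z | D μ f 0 z ≤ 1}

/-- `f₀` is strictly positive and Lipschitz on the unit sphere. -/
def Angular {d : ℕ} (f₀ : E d → ℝ) : Prop :=
  (∃ L : ℝ≥0, LipschitzOnWith L f₀ (Metric.sphere 0 1)) ∧ ∀ u : E d, ‖u‖ = 1 → 0 < f₀ u

/-- `μ` is a norm. -/
def IsNorm {d : ℕ} (μ : Seminorm ℝ (E d)) : Prop := ∀ z : E d, μ z = 0 → z = 0

variable {d : ℕ} {μ : Seminorm ℝ (E d)} {α : ℝ} {f₀ : E d → ℝ}

lemma weight_smul {r : ℝ} (hr : 0 < r) (z : E d) :
    weight α f₀ (r • z) = r ^ α * weight α f₀ z := by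
  unfold weight
  rw [norm_smul, Real.norm_of_nonneg hr.le, Real.mul_rpow hr.le (norm_nonneg _), mul_inv,
    smul_smul, show r⁻¹ * ‖z‖⁻¹ * r = ‖z‖⁻¹ by field_simp, mul_assoc]

lemma segLen_smul {r : ℝ} (hr : 0 < r) (p q : E d) :
    segLen μ (weight α f₀) (r • p) (r • q) =
      ENNReal.ofReal (r ^ (1 - α)) * segLen μ (weight α f₀) p q := by
  unfold segLen
  have h1 : ∀ s : ℝ, (1 - s) • r • p + s • r • q = r • ((1 - s) • p + s • q) := by
    intro s
    rw [smul_add, smul_comm, smul_comm s r]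
  have h2 : ∀ s : ℝ, ENNReal.ofReal (1 / weight α f₀ ((1 - s) • r • p + s • r • q)) =
      ENNReal.ofReal (r ^ (-α)) * ENNReal.ofReal (1 / weight α f₀ ((1 - s) • p + s • q)) := by
    intro s
    rw [h1, weight_smul hr, ← ENNReal.ofReal_mul (Real.rpow_nonneg hr.le _), Real.rpow_neg hr.le]
    congr 1
    rw [one_div, one_div, mul_inv]
  simp_rw [h2]
  rw [lintegral_const_mul' _ _ ENNReal.ofReal_ne_top, ← smul_sub, map_smul_eq_mul,
    Real.norm_of_nonneg hr.le, ENNReal.ofReal_mul hr.le, ← mul_assoc, ← mul_assoc]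
  congr 1
  rw [mul_right_comm, ← ENNReal.ofReal_mul hr.le]
  congr 2
  rw [show (1 : ℝ) - α = 1 + (-α) by ring, Real.rpow_add hr, Real.rpow_one]

lemma pathLen_smul {r : ℝ} (hr : 0 < r) : ∀ l : List (E d),
    pathLen μ (weight α f₀) (l.map (r • ·)) =
      ENNReal.ofReal (r ^ (1 - α)) * pathLen μ (weight α f₀) l
  | [] => by simp [pathLen]
  | [_] => by simp [pathLen]
  | p :: q :: l => by
    have ih := pathLen_smul hr (q :: l)
    simp only [List.map_cons, pathLen] at ih ⊢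
    rw [ih, segLen_smul hr, mul_add]

lemma D_smul_le {r : ℝ} (hr : 0 < r) (z : E d) :
    D μ (weight α f₀) 0 (r • z) ≤ ENNReal.ofReal (r ^ (1 - α)) * D μ (weight α f₀) 0 z := by
  unfold D
  rw [ENNReal.mul_iInf_of_ne (by simpa using Real.rpow_pos_of_pos hr _) ENNReal.ofReal_ne_top]
  refine le_iInf fun l => ?_
  refine (iInf_le _ (l.map (r • ·))).trans ?_
  rw [← pathLen_smul hr]
  simp

/-- `D(0,·)` is homogeneous of degree `1 - α`. -/
lemma D_smul {r : ℝ} (hr : 0 < r) (z : E d) :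
    D μ (weight α f₀) 0 (r • z) = ENNReal.ofReal (r ^ (1 - α)) * D μ (weight α f₀) 0 z := by
  apply le_antisymm (D_smul_le hr z)
  have h := D_smul_le (μ := μ) (α := α) (f₀ := f₀) (inv_pos.2 hr) (r • z)
  rw [smul_smul, inv_mul_cancel₀ hr.ne', one_smul] at h
  calc _ ≤ ENNReal.ofReal (r ^ (1 - α)) *
        (ENNReal.ofReal (r⁻¹ ^ (1 - α)) * D μ (weight α f₀) 0 (r • z)) := by gcongr
    _ = D μ (weight α f₀) 0 (r • z) := by
      rw [← mul_assoc, ← ENNReal.ofReal_mul (Real.rpow_nonneg hr.le _), ← Real.mul_rpow hr.le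
        (inv_nonneg.2 hr.le), mul_inv_cancel₀ hr.ne', Real.one_rpow, ENNReal.ofReal_one, one_mul]

lemma norm_lower (hμ : IsNorm μ) : ∃ c : ℝ, 0 < c ∧ ∀ z : E d, c * ‖z‖ ≤ μ z := by
  have hcont : Continuous (fun z : E d => μ z) := by
    rw [← continuousOn_univ]
    exact ConvexOn.continuousOn isOpen_univ μ.convexOn
  rcases subsingleton_or_nontrivial (E d) with h | h
  · refine ⟨1, one_pos, fun z => ?_⟩
    rw [Subsingleton.elim z 0]
    simp
  obtain ⟨u, hu, hmin⟩ := (isCompact_sphere (0 : E d) 1).exists_isMinOn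
    (NormedSpace.sphere_nonempty.2 zero_le_one) hcont.continuousOn
  have hu1 : ‖u‖ = 1 := by simpa using hu
  refine ⟨μ u, ?_, fun z => ?_⟩
  · rcases (apply_nonneg μ u).eq_or_lt with h0 | h0
    · have := hμ u h0.symm
      rw [this, norm_zero] at hu1
      norm_num at hu1
    · exact h0
  · rcases eq_or_ne z 0 with rfl | hz
    · simp
    · have hz0 : 0 < ‖z‖ := norm_pos_iff.2 hz
      have h1 : μ u ≤ μ (‖z‖⁻¹ • z) := by
        apply hmin
        rw [mem_sphere_zero_iff_norm, norm_smul, norm_inv, norm_norm, inv_mul_cancel₀ hz0.ne']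
      rw [map_smul_eq_mul, norm_inv, norm_norm] at h1
      calc μ u * ‖z‖ ≤ ‖z‖⁻¹ * μ z * ‖z‖ := by gcongr
        _ = μ z := by field_simp

lemma ang_upper (hf : Angular f₀) : ∃ M : ℝ, 0 < M ∧ ∀ u : E d, ‖u‖ = 1 → f₀ u ≤ M := by
  obtain ⟨⟨L, hL⟩, -⟩ := hf
  obtain ⟨M, hM⟩ := (isCompact_sphere (0 : E d) 1).bddAbove_image hL.continuousOn
  refine ⟨max M 1, lt_max_of_lt_right one_pos, fun u hu => ?_⟩
  exact (hM ⟨u, by simpa using hu, rfl⟩).trans (le_max_left _ _)

/-- `D(0,z) ≥ c |z|^{1-α}`. -/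
lemma D_lower (hμ : IsNorm μ) (hf : Angular f₀) (hα0 : 0 ≤ α) (hα1 : α < 1) :
    ∃ c : ℝ, 0 < c ∧ ∀ z : E d, ENNReal.ofReal (c * ‖z‖ ^ (1 - α)) ≤ D μ (weight α f₀) 0 z := by
  obtain ⟨c, hc, hcμ⟩ := norm_lower hμ
  obtain ⟨M, hM, hMf⟩ := ang_upper hf
  have hβ : 0 < 1 - α := by linarith
  refine ⟨c / M, by positivity, fun z => ?_⟩
  -- one segment
  have hseg : ∀ p q : E d, ENNReal.ofReal (c / M * ‖q‖ ^ (1 - α)) ≤
      ENNReal.ofReal (c / M * ‖p‖ ^ (1 - α)) + segLen μ (weight α f₀) p q := by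
    intro p q
    rcases le_or_gt ‖q‖ ‖p‖ with h | h
    · refine le_add_right (ENNReal.ofReal_le_ofReal ?_)
      gcongr
    have hq : 0 < ‖q‖ := (norm_nonneg p).trans_lt h
    have hw : ∀ s ∈ Icc (0 : ℝ) 1, (1 - s) • p + s • q ≠ 0 →
        ‖q‖ ^ (-α) / M ≤ 1 / weight α f₀ ((1 - s) • p + s • q) := by
      intro s hs hne
      set x := (1 - s) • p + s • q with hx
      have hx0 : 0 < ‖x‖ := norm_pos_iff.2 hne
      have hxq : ‖x‖ ≤ ‖q‖ := by
        have h1 := norm_add_le ((1 - s) • p) (s • q)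
        rw [norm_smul, norm_smul, Real.norm_of_nonneg (by linarith [hs.2]),
          Real.norm_of_nonneg hs.1] at h1
        nlinarith [hs.1, hs.2]
      have hu : ‖(‖x‖⁻¹ • x)‖ = 1 := by
        rw [norm_smul, norm_inv, norm_norm, inv_mul_cancel₀ hx0.ne']
      have h1 := hMf _ hu
      have h2 := hf.2 _ hu
      have h3 : 0 < ‖x‖ ^ α := Real.rpow_pos_of_pos hx0 _
      have h4 : ‖x‖ ^ α ≤ ‖q‖ ^ α := Real.rpow_le_rpow hx0.le hxq hα0
      have h5 : 0 < ‖q‖ ^ α := Real.rpow_pos_of_pos hq _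
      unfold weight
      rw [Real.rpow_neg hq.le, div_le_div_iff₀ hM (mul_pos h3 h2), one_mul]
      calc (‖q‖ ^ α)⁻¹ * (‖x‖ ^ α * f₀ (‖x‖⁻¹ • x)) ≤ (‖q‖ ^ α)⁻¹ * (‖q‖ ^ α * M) := by gcongr
        _ = M := by field_simp
    have hint : ENNReal.ofReal (‖q‖ ^ (-α) / M) ≤
        ∫⁻ s in Icc (0 : ℝ) 1, ENNReal.ofReal (1 / weight α f₀ ((1 - s) • p + s • q)) := by
      have hone : ENNReal.ofReal (‖q‖ ^ (-α) / M) =
          ∫⁻ s in Icc (0 : ℝ) 1, ENNReal.ofReal (‖q‖ ^ (-α) / M) := by simp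
      rw [hone]
      apply lintegral_mono_ae
      -- the segment meets `0` at most once
      have hnull : volume {s : ℝ | (1 - s) • p + s • q = 0} = 0 := by
        apply Set.Subsingleton.measure_zero
        intro s hs t ht
        have hs' : (1 - s) • p + s • q = 0 := hs
        have ht' : (1 - t) • p + t • q = 0 := ht
        by_contra hst
        have h1 : (s - t) • (q - p) = 0 := by
          have : (s - t) • (q - p) = ((1 - s) • p + s • q) - ((1 - t) • p + t • q) := by module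
          rw [this, hs', ht', sub_zero]
        rcases smul_eq_zero.1 h1 with h2 | h2
        · exact hst (sub_eq_zero.1 h2)
        · have : q = p := sub_eq_zero.1 h2
          rw [this] at h
          exact lt_irrefl _ h
      have h1 : ∀ᵐ s ∂(volume.restrict (Icc (0 : ℝ) 1)), (1 - s) • p + s • q ≠ 0 := by
        apply ae_restrict_of_ae
        rw [ae_iff]
        simpa using hnull
      have h2 : ∀ᵐ s ∂(volume.restrict (Icc (0 : ℝ) 1)), s ∈ Icc (0 : ℝ) 1 :=
        ae_restrict_mem measurableSet_Icc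
      filter_upwards [h1, h2] with s hs1 hs2
      exact ENNReal.ofReal_le_ofReal (hw s hs2 hs1)
    have hμq : c * (‖q‖ - ‖p‖) ≤ μ (q - p) := by
      refine le_trans ?_ (hcμ (q - p))
      gcongr
      exact norm_sub_norm_le q p
    have hreal : c / M * ‖q‖ ^ (1 - α) ≤ c / M * ‖p‖ ^ (1 - α) +
        c * (‖q‖ - ‖p‖) * (‖q‖ ^ (-α) / M) := by
      have hqa : ‖q‖ ^ (1 - α) = ‖q‖ * ‖q‖ ^ (-α) := by
        rw [show (1 : ℝ) - α = 1 + (-α) by ring, Real.rpow_add hq, Real.rpow_one]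
      have hpa : ‖p‖ * ‖q‖ ^ (-α) ≤ ‖p‖ ^ (1 - α) := by
        rcases (norm_nonneg p).eq_or_lt with h0 | h0
        · rw [← h0, zero_mul]
          exact Real.rpow_nonneg le_rfl _
        · rw [show (1 : ℝ) - α = 1 + (-α) by ring, Real.rpow_add h0, Real.rpow_one]
          gcongr 1
          apply Real.rpow_le_rpow_of_nonpos h0 h.le (by linarith)
      have hcM : 0 < c / M := by positivity
      have e1 : c * (‖q‖ - ‖p‖) * (‖q‖ ^ (-α) / M) =
          c / M * (‖q‖ * ‖q‖ ^ (-α) - ‖p‖ * ‖q‖ ^ (-α)) := by ring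
      rw [e1, ← hqa, ← mul_add]
      gcongr
      linarith
    calc ENNReal.ofReal (c / M * ‖q‖ ^ (1 - α)) ≤
        ENNReal.ofReal (c / M * ‖p‖ ^ (1 - α) + c * (‖q‖ - ‖p‖) * (‖q‖ ^ (-α) / M)) :=
          ENNReal.ofReal_le_ofReal hreal
      _ = ENNReal.ofReal (c / M * ‖p‖ ^ (1 - α)) +
          ENNReal.ofReal (c * (‖q‖ - ‖p‖)) * ENNReal.ofReal (‖q‖ ^ (-α) / M) := by
          have : 0 ≤ ‖q‖ - ‖p‖ := by linarith
          rw [ENNReal.ofReal_add (by positivity) (by positivity),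
            ENNReal.ofReal_mul (p := c * (‖q‖ - ‖p‖)) (by positivity)]
      _ ≤ _ := by
          unfold segLen
          gcongr
  -- a whole path
  have hpath : ∀ (l : List (E d)) (p : E d), ENNReal.ofReal (c / M * ‖z‖ ^ (1 - α)) ≤
      ENNReal.ofReal (c / M * ‖p‖ ^ (1 - α)) + pathLen μ (weight α f₀) (p :: (l ++ [z])) := by
    intro l
    induction l with
    | nil =>
      intro p
      simp only [List.nil_append, pathLen, add_zero]
      exact hseg p z
    | cons q l ih =>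
      intro p
      simp only [List.cons_append, pathLen]
      calc _ ≤ _ := ih q
        _ ≤ _ := add_le_add (hseg p q) le_rfl
        _ = _ := by rw [add_assoc]
  unfold D
  refine le_iInf fun l => ?_
  have := hpath l 0
  rwa [norm_zero, Real.zero_rpow hβ.ne', mul_zero, ENNReal.ofReal_zero, zero_add] at this

end Pool.Agent.Q218.WF
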